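import Pool.Agent.U426.TU.Stm

/-!
# Project TU, package EG (helper730): every pure quaternion of the icosian order over `ℤ[√2, φ]`
stabilises a left ideal between `√2 O` and `O`
-/

set_option autoImplicit false

namespace Pool.Agent.U730.TU.EG

open Pool.Agent.U426.TU

theorem mem_R {x : K} : x ∈ R ↔ ∃ a b c d : ℤ, x = mkK a b c d := Iff.rfl

theorem r2_mem : r2 ∈ R := ⟨0, 1, 0, 0, by simp [r2]⟩

theorem two_eq : (2 : K) = r2 * r2 := by rw [← r2_sq, sq]

theorem one_not (t : K) (ht : t ∈ R) : (1 : K) ≠ r2 * t := by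
  obtain ⟨a, b, c, d, rfl⟩ := ht
  intro h
  have h0 := congrArg c0 h
  rw [← mkK_one, r2, mkK_mul, c0_mk, c0_mk] at h0
  have h1 : (1 : ℚ) = 2 * b := by linarith
  have h2 : (1 : ℤ) = 2 * b := by exact_mod_cast h1
  omega

theorem even_mul_self_sub (a : ℤ) : (2 : ℤ) ∣ a * a - a := by
  have := Int.even_mul_pred_self a
  rw [show a * a - a = a * (a - 1) by ring]
  exact this.two_dvd

theorem sq_mod (a b c d : ℤ) : ∃ a' b' c' d' : ℤ, mkK a b c d * mkK a b c d = mkK a' b' c' d' ∧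
    2 ∣ a' - (a + c) ∧ 2 ∣ c' - c := by
  refine ⟨a * a + 2 * b * b + c * c + 2 * d * d, a * b + b * a + c * d + d * c,
      a * c + 2 * b * d + c * a + 2 * d * b + c * c + 2 * d * d,
      a * d + b * c + c * b + d * a + c * d + d * c, ?_, ?_, ?_⟩
  · rw [mkK_mul]
    push_cast
    rfl
  · have h1 := even_mul_self_sub a
    have h2 := even_mul_self_sub c
    have : a * a + 2 * b * b + c * c + 2 * d * d - (a + c) =
      (a * a - a) + (c * c - c) + 2 * (b * b + d * d) := by ring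
    rw [this]
    exact dvd_add (dvd_add h1 h2) (dvd_mul_right _ _)
  · have h2 := even_mul_self_sub c
    have : a * c + 2 * b * d + c * a + 2 * d * b + c * c + 2 * d * d - c =
      (c * c - c) + 2 * (a * c + 2 * b * d + d * d) := by ring
    rw [this]
    exact dvd_add h2 (dvd_mul_right _ _)

/-- the residue field has four elements -/
theorem four (x : K) (hx : x ∈ R) : ∃ t ∈ R, x * x * (x * x) - x = r2 * t := by
  obtain ⟨a, b, c, d, rfl⟩ := hx
  obtain ⟨a', b', c', d', h1, h2, h3⟩ := sq_mod a b c d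
  obtain ⟨a'', b'', c'', d'', h4, h5, h6⟩ := sq_mod a' b' c' d'
  rw [h1, h4, mkK_sub]
  obtain ⟨p, hp⟩ : (2 : ℤ) ∣ a'' - a := by omega
  obtain ⟨q, hq⟩ : (2 : ℤ) ∣ c'' - c := by omega
  refine ⟨mkK (b'' - b) p (d'' - d) q, ⟨b'' - b, p, d'' - d, q, by push_cast; rfl⟩, ?_⟩
  rw [r2, mkK_mul]
  have hp' : (a'' : ℚ) - a = 2 * p := by exact_mod_cast hp
  have hq' : (c'' : ℚ) - c = 2 * q := by exact_mod_cast hq
  rw [hp', hq']
  apply ext4 <;> simp

theorem smul_mul (r : K) (x y : HK) : (r • x) * y = r • (x * y) := smul_mul_assoc r x y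

theorem mul_smul' (r : K) (x y : HK) : x * (r • y) = r • (x * y) := mul_smul_comm r x y

/-- the left ideal `O g + √2 O` -/
def Lg (_hI : S_ICO) (g : HK) : AddSubgroup HK where
  carrier := {z | ∃ a ∈ OI, ∃ b ∈ OI, z = a * g + r2 • b}
  add_mem' := by
    rintro _ _ ⟨a, ha, b, hb, rfl⟩ ⟨a', ha', b', hb', rfl⟩
    refine ⟨a + a', OI.add_mem ha ha', b + b', OI.add_mem hb hb', ?_⟩
    rw [add_mul, smul_add]
    abel
  zero_mem' := ⟨0, OI.zero_mem, 0, OI.zero_mem, by simp⟩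
  neg_mem' := by
    rintro _ ⟨a, ha, b, hb, rfl⟩
    refine ⟨-a, OI.neg_mem ha, -b, OI.neg_mem hb, ?_⟩
    rw [neg_mul, smul_neg]
    abel

theorem mem_Lg {hI : S_ICO} {g z : HK} : z ∈ Lg hI g ↔ ∃ a ∈ OI, ∃ b ∈ OI, z = a * g + r2 • b :=
  Iff.rfl

theorem normSq_one_sub (b : HK) : Quaternion.normSq (1 - r2 • b) =
    1 - r2 * (2 * b.re) + r2 * (r2 * Quaternion.normSq b) := by
  simp only [Quaternion.normSq_def']
  simp only [Quaternion.re_sub, Quaternion.imI_sub, Quaternion.imJ_sub, Quaternion.imK_sub,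
    Quaternion.re_one, Quaternion.imI_one, Quaternion.imJ_one, Quaternion.imK_one,
    Quaternion.re_smul, Quaternion.imI_smul, Quaternion.imJ_smul, Quaternion.imK_smul, smul_eq_mul]
  ring

theorem mid_Lg (hI : S_ICO) (g : HK) (hg : g ∈ OI) (hn : ∃ t ∈ R, Quaternion.normSq g = r2 * t)
    (hg2 : ¬ ∃ y ∈ OI, g = r2 • y) : Mid (Lg hI g) := by
  obtain ⟨h1, hmul, hstar, hsm, hnr, -⟩ := id hI
  refine ⟨⟨?_, ?_⟩, ?_, ?_, ?_⟩
  · rintro _ ⟨a, ha, b, hb, rfl⟩
    exact OI.add_mem (hmul a ha g hg) (hsm r2 r2_mem b hb)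
  · rintro c hc _ ⟨a, ha, b, hb, rfl⟩
    refine ⟨c * a, hmul c hc a ha, c * b, hmul c hc b hb, ?_⟩
    rw [mul_add, mul_smul', mul_assoc]
  · intro x hx
    exact ⟨0, OI.zero_mem, x, hx, by simp⟩
  · rintro ⟨a, ha, b, hb, h⟩
    have h2 : a * g = 1 - r2 • b := by rw [h]; abel
    have h3 := congrArg Quaternion.normSq h2
    rw [map_mul, normSq_one_sub] at h3
    obtain ⟨t, ht, h4⟩ := hn
    refine one_not (Quaternion.normSq a * t + 2 * b.re - r2 * Quaternion.normSq b)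
      (R.sub_mem (R.add_mem (R.mul_mem (hnr a ha).1 ht) (hnr b hb).2)
        (R.mul_mem r2_mem (hnr b hb).1)) ?_
    rw [h4] at h3
    linear_combination (-1 : K) * h3
  · exact ⟨g, ⟨1, h1, 0, OI.zero_mem, by simp⟩, hg2⟩

theorem stable_Lg (hI : S_ICO) (g : HK) (x : HK) (hx : x ∈ OI)
    (h : g * x ∈ Lg hI g) : ∀ y ∈ Lg hI g, y * x ∈ Lg hI g := by
  obtain ⟨h1, hmul, hstar, hsm, hnr, -⟩ := id hI
  rintro _ ⟨a, ha, b, hb, rfl⟩
  obtain ⟨c, hc, d, hd, h⟩ := h
  refine ⟨a * c, hmul a ha c hc, a * d + b * x, OI.add_mem (hmul a ha d hd) (hmul b hb x hx), ?_⟩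
  rw [add_mul, mul_assoc, h, mul_add, mul_smul', smul_mul, smul_add, mul_assoc]
  abel

theorem comb (r : Fin 4 → K) : ∑ m, r m • e m =
    (⟨r 0 + r 2 / 2, r 1 + r 2 / 2 + r 3 / 2, r 2 / 2 + r 3 * ((ph - 1) / 2),
      r 2 / 2 + r 3 * (ph / 2)⟩ : HK) := by
  rw [Fin.sum_univ_four]
  apply QuaternionAlgebra.ext
  · show r 0 * 1 + r 1 * 0 + r 2 * (1 / 2) + r 3 * 0 = r 0 + r 2 / 2
    ring
  · show r 0 * 0 + r 1 * 1 + r 2 * (1 / 2) + r 3 * (1 / 2) = r 1 + r 2 / 2 + r 3 / 2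
    ring
  · show r 0 * 0 + r 1 * 0 + r 2 * (1 / 2) + r 3 * ((ph - 1) / 2) = r 2 / 2 + r 3 * ((ph - 1) / 2)
    ring
  · show r 0 * 0 + r 1 * 0 + r 2 * (1 / 2) + r 3 * (ph / 2) = r 2 / 2 + r 3 * (ph / 2)
    ring

theorem opi_mem : opi ∈ OI := by
  refine ⟨![1, 1, 0, 0], ?_, ?_⟩
  · intro m
    fin_cases m
    · exact R.one_mem
    · exact R.one_mem
    · exact R.zero_mem
    · exact R.zero_mem
  · rw [comb]
    apply QuaternionAlgebra.ext
    · show (1 : K) = 1 + 0 / 2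
      ring
    · show (1 : K) = 1 + 0 / 2 + 0 / 2
      ring
    · show (0 : K) = 0 / 2 + 0 * ((ph - 1) / 2)
      ring
    · show (0 : K) = 0 / 2 + 0 * (ph / 2)
      ring

theorem opi_not : ¬ ∃ y ∈ OI, opi = r2 • y := by
  rintro ⟨_, ⟨r, hr, rfl⟩, h⟩
  rw [comb] at h
  have hJ : (0 : K) = r2 * (r 2 / 2 + r 3 * ((ph - 1) / 2)) := congrArg QuaternionAlgebra.imJ h
  have hK : (0 : K) = r2 * (r 2 / 2 + r 3 * (ph / 2)) := congrArg QuaternionAlgebra.imK h
  have h0 : (1 : K) = r2 * (r 0 + r 2 / 2) := congrArg QuaternionAlgebra.re h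
  have h3 : r2 * r 3 = 0 := by linear_combination 2 * hJ - 2 * hK
  have h2 : r2 * r 2 = 0 := by linear_combination (-2 : K) * hK - ph * h3
  exact one_not (r 0) (hr 0) (by linear_combination h0 + h2 / 2)

theorem re_zero (x : HK) (hx : star x = -x) : x.re = 0 := by
  have h : x.re = -x.re := by
    have := congrArg QuaternionAlgebra.re hx
    rwa [Quaternion.re_star, Quaternion.re_neg] at this
  have : (2 : K) * x.re = 0 := by linear_combination h
  exact (mul_eq_zero.1 this).resolve_left two_ne_zero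

theorem sq_pure (x : HK) (hx : star x = -x) : x * x = (-Quaternion.normSq x) • (1 : HK) := by
  have h := Quaternion.self_mul_star x
  rw [hx, mul_neg] at h
  rw [← neg_neg (x * x), h]
  apply QuaternionAlgebra.ext
  · show -(Quaternion.normSq x) = -(Quaternion.normSq x) * 1
    ring
  · show -(0 : K) = -(Quaternion.normSq x) * 0
    ring
  · show -(0 : K) = -(Quaternion.normSq x) * 0
    ring
  · show -(0 : K) = -(Quaternion.normSq x) * 0
    ring

theorem normSq_sub (x : HK) (hx : x.re = 0) (β : K) :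
    Quaternion.normSq (x - β • (1 : HK)) = Quaternion.normSq x + β * β := by
  simp only [Quaternion.normSq_def']
  simp only [Quaternion.re_sub, Quaternion.imI_sub, Quaternion.imJ_sub, Quaternion.imK_sub,
    Quaternion.re_one, Quaternion.imI_one, Quaternion.imJ_one, Quaternion.imK_one,
    Quaternion.re_smul, Quaternion.imI_smul, Quaternion.imJ_smul, Quaternion.imK_smul, smul_eq_mul,
    hx]
  ring

theorem t_EG (hI : S_ICO) : S_EG := by
  intro x hx hxs
  obtain ⟨h1, hmul, hstar, hsm, hnr, -⟩ := id hI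
  have hα := (hnr x hx).1
  set α := Quaternion.normSq x with hαd
  set β := α * α with hβd
  have hβ : β ∈ R := R.mul_mem hα hα
  obtain ⟨t, ht, h4⟩ := four α hα
  have hsq := sq_pure x hxs
  set y := x - β • (1 : HK) with hyd
  have hy : y ∈ OI := OI.sub_mem hx (hsm β hβ 1 h1)
  have hxy : x = y + β • (1 : HK) := by rw [hyd]; abel
  have hny : Quaternion.normSq y = r2 * (t + r2 * α) := by
    rw [hyd, normSq_sub x (re_zero x hxs)]
    have : β * β = α + r2 * t := by linear_combination h4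
    rw [this]
    have h2 := two_eq
    linear_combination α * h2
  have hmem1 : t + r2 * α ∈ R := R.add_mem ht (R.mul_mem r2_mem hα)
  by_cases hc : ∃ y' ∈ OI, y = r2 • y'
  · obtain ⟨y', hy', h5⟩ := hc
    refine ⟨Lg hI opi, mid_Lg hI opi opi_mem ⟨r2, r2_mem, ?_⟩ opi_not, ?_⟩
    · rw [← two_eq, Quaternion.normSq_def']
      show (1 : K) ^ 2 + 1 ^ 2 + 0 ^ 2 + 0 ^ 2 = 2
      norm_num
    · apply stable_Lg hI opi x hx
      refine ⟨β • 1, hsm β hβ 1 h1, opi * y', hmul _ opi_mem _ hy', ?_⟩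
      rw [hxy, h5, mul_add, mul_smul', mul_smul', mul_one, smul_mul, one_mul]
      abel
  · refine ⟨Lg hI y, mid_Lg hI y hy ⟨_, hmem1, hny⟩ hc, ?_⟩
    apply stable_Lg hI y x hx
    -- `y x = β y + y²`, `y² = -α - 2 β x + β² = √2 (…)`
    have hyy : y * x = (β • (1 : HK)) * y + r2 • (-(r2 • (β • x)) + t • (1 : HK)) := by
      have e1 : y * x = x * x - β • x := by
        rw [hyd, sub_mul, smul_mul, one_mul]
      have e2 : (β • (1 : HK)) * y = β • x - (β * β) • (1 : HK) := by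
        rw [hyd, smul_mul, one_mul, smul_sub, smul_smul]
      have e3 : r2 • (-(r2 • (β • x)) + t • (1 : HK)) = -((2 * β) • x) + (β * β - α) • (1 : HK) := by
        rw [smul_add, smul_neg, smul_smul, smul_smul, smul_smul, ← two_eq]
        have : r2 * t = β * β - α := by rw [← h4]
        rw [this]
      rw [e1, e2, e3, hsq]
      module
    refine ⟨β • 1, hsm β hβ 1 h1, _, ?_, hyy⟩
    exact OI.add_mem (OI.neg_mem (hsm r2 r2_mem _ (hsm β hβ x hx))) (hsm t ht 1 h1)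

end Pool.Agent.U730.TU.EG
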