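import Pool.Agent.U730.TU.EG

/-!
# Project TU, package LAST (helper730): the pure quaternions in the right order of
`O (1 + i) + √2 O`

If `x` is pure and `L x ⊆ L` for `L = O (1 + i) + √2 O`, then `X = √2 x = (0, A, B, C)` lies in `O`,
and `(1 + i) x (1 - i) = √2 (0, A, -C, B)` with `(0, A, -C, B) ∈ O`. In the basis `e` these two
conditions give `A, B, C ∈ R`.
-/

set_option autoImplicit false

namespace Pool.Agent.U730.TU.LAST

open Pool.Agent.U426.TU Pool.Agent.U730.TU.EG

theorem ph_mem : ph ∈ R := ⟨0, 0, 1, 0, by simp [ph]⟩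

theorem coords (A B C : K) (h1 : (⟨0, A, B, C⟩ : HK) ∈ OI) (h2 : (⟨0, A, -C, B⟩ : HK) ∈ OI) :
    A ∈ R ∧ B ∈ R ∧ C ∈ R := by
  obtain ⟨r, hr, h1⟩ := h1
  obtain ⟨s, hs, h2⟩ := h2
  rw [comb] at h1 h2
  have a0 : (0 : K) = r 0 + r 2 / 2 := congrArg QuaternionAlgebra.re h1
  have a1 : A = r 1 + r 2 / 2 + r 3 / 2 := congrArg QuaternionAlgebra.imI h1
  have a2 : B = r 2 / 2 + r 3 * ((ph - 1) / 2) := congrArg QuaternionAlgebra.imJ h1
  have a3 : C = r 2 / 2 + r 3 * (ph / 2) := congrArg QuaternionAlgebra.imK h1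
  have b0 : (0 : K) = s 0 + s 2 / 2 := congrArg QuaternionAlgebra.re h2
  have b2 : -C = s 2 / 2 + s 3 * ((ph - 1) / 2) := congrArg QuaternionAlgebra.imJ h2
  have b3 : B = s 2 / 2 + s 3 * (ph / 2) := congrArg QuaternionAlgebra.imK h2
  have hph := ph_sq
  have hs3 : s 3 / 2 = B + C := by linear_combination b2 - b3
  have hs0 : s 0 = (B + C) * ph - B := by
    linear_combination b3 - b0 + ph * hs3
  have key : (3 / 2 : K) * r 3 = s 0 - r 0 * (1 - 2 * ph) := by
    rw [hs0, a2, a3]
    linear_combination (2 * ph - 1) * a0 - r 3 * hph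
  have hmem : r 3 / 2 ∈ R := by
    have : r 3 / 2 = s 0 - r 0 * (1 - (ph + ph)) - r 3 := by linear_combination key
    rw [this]
    exact R.sub_mem (R.sub_mem (hs 0) (R.mul_mem (hr 0) (R.sub_mem R.one_mem
      (R.add_mem ph_mem ph_mem)))) (hr 3)
  refine ⟨?_, ?_, ?_⟩
  · have : A = r 1 - r 0 + r 3 / 2 := by linear_combination a1 - a0
    rw [this]
    exact R.add_mem (R.sub_mem (hr 1) (hr 0)) hmem
  · have : B = (ph - 1) * (r 3 / 2) - r 0 := by linear_combination a2 - a0
    rw [this]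
    exact R.sub_mem (R.mul_mem (R.sub_mem ph_mem R.one_mem) hmem) (hr 0)
  · have : C = ph * (r 3 / 2) - r 0 := by linear_combination a3 - a0
    rw [this]
    exact R.sub_mem (R.mul_mem ph_mem hmem) (hr 0)

theorem conj_opi (x : HK) (hx : x.re = 0) :
    opi * x * star opi = (2 : K) • (⟨0, x.imI, -x.imK, x.imJ⟩ : HK) := by
  have o0 : opi.re = 1 := rfl
  have o1 : opi.imI = 1 := rfl
  have o2 : opi.imJ = 0 := rfl
  have o3 : opi.imK = 0 := rfl
  apply QuaternionAlgebra.ext
  · show (opi * x * star opi).re = 2 * 0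
    simp only [Quaternion.re_mul, Quaternion.imI_mul, Quaternion.imJ_mul, Quaternion.imK_mul,
      Quaternion.re_star, Quaternion.imI_star, Quaternion.imJ_star, Quaternion.imK_star, o0, o1, o2,
      o3, hx]
    ring
  · show (opi * x * star opi).imI = 2 * x.imI
    simp only [Quaternion.re_mul, Quaternion.imI_mul, Quaternion.imJ_mul, Quaternion.imK_mul,
      Quaternion.re_star, Quaternion.imI_star, Quaternion.imJ_star, Quaternion.imK_star, o0, o1, o2,
      o3, hx]
    ring
  · show (opi * x * star opi).imJ = 2 * -x.imK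
    simp only [Quaternion.re_mul, Quaternion.imI_mul, Quaternion.imJ_mul, Quaternion.imK_mul,
      Quaternion.re_star, Quaternion.imI_star, Quaternion.imJ_star, Quaternion.imK_star, o0, o1, o2,
      o3, hx]
    ring
  · show (opi * x * star opi).imK = 2 * x.imJ
    simp only [Quaternion.re_mul, Quaternion.imI_mul, Quaternion.imJ_mul, Quaternion.imK_mul,
      Quaternion.re_star, Quaternion.imI_star, Quaternion.imJ_star, Quaternion.imK_star, o0, o1, o2,
      o3, hx]
    ring

theorem t_LAST (hI : S_ICO) : S_LAST := by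
  intro x hxs hx
  obtain ⟨h1, hmul, hstar, hsm, hnr, -⟩ := id hI
  have hre := re_zero x hxs
  -- `√2 x ∈ O`
  have hX : r2 • x ∈ OI := by
    obtain ⟨a, ha, b, hb, h⟩ := hx 0 OI.zero_mem 1 h1
    have : r2 • x = a * opi + r2 • b := by
      rw [← h, zero_mul, zero_add, smul_mul, one_mul]
    rw [this]
    exact OI.add_mem (hmul a ha _ opi_mem) (hsm r2 r2_mem b hb)
  have hY : (⟨0, (r2 • x).imI, -(r2 • x).imK, (r2 • x).imJ⟩ : HK) ∈ OI := by
    obtain ⟨a, ha, b, hb, h⟩ := hx 1 h1 0 OI.zero_mem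
    have h2 : opi * x = a * opi + r2 • b := by
      rw [← h, one_mul, smul_zero, add_zero]
    have h3 : opi * (r2 • x) * star opi = (2 : K) • (r2 • a + b * star opi) := by
      rw [mul_smul', h2, smul_mul, add_mul, mul_assoc, Quaternion.self_mul_star]
      have h4 : ((Quaternion.normSq opi : K) : HK) = (2 : K) • (1 : HK) := by
        apply QuaternionAlgebra.ext
        · show Quaternion.normSq opi = 2 * 1
          rw [Quaternion.normSq_def']
          show (1 : K) ^ 2 + 1 ^ 2 + 0 ^ 2 + 0 ^ 2 = 2 * 1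
          norm_num
        · show (0 : K) = 2 * 0
          ring
        · show (0 : K) = 2 * 0
          ring
        · show (0 : K) = 2 * 0
          ring
      rw [h4, mul_smul', mul_one, smul_mul, smul_add, smul_add, smul_smul, smul_smul, smul_smul,
        ← two_eq, mul_comm r2 2]
    rw [conj_opi (r2 • x) (by show r2 * x.re = 0; rw [hre, mul_zero])] at h3
    have h5 := smul_right_injective HK (two_ne_zero (α := K)) h3
    rw [h5]
    exact OI.add_mem (hsm r2 r2_mem a ha) (hmul b hb _ (hstar _ opi_mem))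
  have hXe : r2 • x = (⟨0, (r2 • x).imI, (r2 • x).imJ, (r2 • x).imK⟩ : HK) := by
    apply QuaternionAlgebra.ext
    · show r2 * x.re = 0
      rw [hre, mul_zero]
    · rfl
    · rfl
    · rfl
  obtain ⟨hA, hB, hC⟩ := coords _ _ _ (hXe ▸ hX) hY
  exact ⟨_, hA, _, hB, _, hC, hXe⟩

end Pool.Agent.U730.TU.LAST
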